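import Mathlib
import Pool.Agent.P.MP_126cd2_nt.Defs
import Pool.Agent.P.MP_126cd2_nt.Upper
import Pool.Agent.P.MP_126cd2_nt.Lower

namespace Pool.Agent.Results.MP_126cd2_nt.LogAsymptotics

open Filter Pool.Agent.P.MP_126cd2_nt

theorem result : ∀ᶠ n : ℕ in atTop,
    (n : ℝ) * (Real.log n + Real.log (Real.log n) - 10) ≤ Real.log (h n) ∧
    Real.log (h n) ≤ (n : ℝ) * (Real.log n + 2 * Real.log (Real.log n) + 11) := by
  have hlog : Tendsto (fun n : ℕ => Real.log n) atTop atTop :=
    Real.tendsto_log_atTop.comp tendsto_natCast_atTop_atTop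
  filter_upwards [lower_bound, hlog.eventually_ge_atTop 8, eventually_ge_atTop 1] with n h1 h2 h3
  have hne : {x : ℕ | 0 < x ∧ ¬ IsSumOf n x}.Nonempty := by
    by_contra hc
    obtain ⟨X, hX⟩ := ((hlog.eventually_gt_atTop
      (n * (Real.log n + 2 * Real.log (Real.log n) + 10))).and (eventually_ge_atTop 1)).exists
    refine absurd (upper_bound h2 hX.2 fun x hx _ => ?_) (not_le.2 hX.1)
    by_contra hx'
    exact hc ⟨x, hx, hx'⟩
  have hmem : 0 < h n ∧ ¬ IsSumOf n (h n) := Nat.sInf_mem hne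
  have hpos : (0 : ℝ) < h n := by exact_mod_cast hmem.1
  constructor
  · rw [Real.le_log_iff_exp_le hpos]
    by_contra hc
    exact hmem.2 (h1 _ (not_le.1 hc).le)
  · have hn : (1 : ℝ) ≤ n := by exact_mod_cast h3
    have h2le : 2 ≤ h n := by
      by_contra hc
      have : h n = 1 := by omega
      exact hmem.2 (this ▸ (isSumOf_self 1).mono h3)
    have h4 := upper_bound (X := h n - 1) h2 (by omega) fun x hx hx' => by
      by_contra hc
      have : h n ≤ x := Nat.sInf_le ⟨hx, hc⟩
      omega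
    have h5 : (h n : ℝ) ≤ 2 * ((h n - 1 : ℕ) : ℝ) := by
      have : h n ≤ 2 * (h n - 1) := by omega
      exact_mod_cast this
    have h6 : (0 : ℝ) < ((h n - 1 : ℕ) : ℝ) := by
      have : 0 < h n - 1 := by omega
      exact_mod_cast this
    have h7 := Real.log_le_log hpos h5
    rw [Real.log_mul (by norm_num) h6.ne'] at h7
    have h8 := Real.log_two_lt_d9
    linarith

end Pool.Agent.Results.MP_126cd2_nt.LogAsymptotics
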